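import Mathlib

set_option autoImplicit false

/-! The trace obstruction for stationary finitely dependent colourings of bounded Hankel rank. -/

namespace Pool.Agent.Lib.MP_83a7f3_pr

variable {α : Type} [Fintype α]

/-- Prepending a letter. -/
def pre (x : α) : (List α → ℝ) →ₗ[ℝ] (List α → ℝ) where
  toFun f := fun v => f (x :: v)
  map_add' _ _ := rfl
  map_smul' _ _ := rfl

/-- Summing out the first letter. -/
def sh (α : Type) [Fintype α] : (List α → ℝ) →ₗ[ℝ] (List α → ℝ) := ∑ x, pre x

theorem sh_apply (f : List α → ℝ) (v : List α) : sh α f v = ∑ x, f (x :: v) := by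
  simp [sh, pre, LinearMap.sum_apply, Finset.sum_apply]

omit [Fintype α] in
theorem finite_span (p : List α → ℝ) (D : ℕ)
    (hD : ∀ (u : Fin (D + 1) → List α) (b : ℕ), ∃ c : Fin (D + 1) → ℝ, c ≠ 0 ∧
      ∀ v : List α, v.length ≤ b → ∑ i, c i * p (u i ++ v) = 0) :
    Module.Finite ℝ (Submodule.span ℝ (Set.range (fun u : List α => fun v => p (u ++ v)))) := by
  obtain ⟨B, hB, hspan, hli⟩ :=
    exists_linearIndependent ℝ (Set.range (fun u : List α => fun v => p (u ++ v)))
  by_cases hfin : B.Finite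
  · rw [← hspan]
    exact Module.Finite.span_of_finite ℝ hfin
  exfalso
  have hinf : B.Infinite := hfin
  let e : Fin (D + 1) → B := fun i => hinf.natEmbedding B i.1
  have he : Function.Injective e := (hinf.natEmbedding B).injective.comp Fin.val_injective
  have hli2 : LinearIndependent ℝ (fun i => (e i).1) := hli.comp e he
  choose u hu using fun i => hB (e i).2
  let K : ℕ → Submodule ℝ (Fin (D + 1) → ℝ) := fun b =>
    { carrier := {c | ∀ v : List α, v.length ≤ b → ∑ i, c i * p (u i ++ v) = 0}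
      add_mem' := by
        intro c d hc hd v hv
        simp only [Pi.add_apply, add_mul, Finset.sum_add_distrib, hc v hv, hd v hv, add_zero]
      zero_mem' := by intro v _; simp
      smul_mem' := by
        intro r c hc v hv
        simp only [Pi.smul_apply, smul_eq_mul, mul_assoc, ← Finset.mul_sum, hc v hv, mul_zero] }
  let K' : ℕ →o (Submodule ℝ (Fin (D + 1) → ℝ))ᵒᵈ :=
    ⟨fun b => OrderDual.toDual (K b), fun a b hab c hc v hv => hc v (hv.trans hab)⟩
  obtain ⟨n, hn⟩ := IsArtinian.monotone_stabilizes K'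
  obtain ⟨c, hc0, hc⟩ := hD u n
  apply hc0
  have hall : ∀ v : List α, ∑ i, c i * p (u i ++ v) = 0 := by
    intro v
    have h1 : K n = K (max n v.length) := hn _ (le_max_left _ _)
    have h2 : c ∈ K n := hc
    rw [h1] at h2
    exact h2 v (le_max_right _ _)
  funext i
  refine Fintype.linearIndependent_iff.1 hli2 c ?_ i
  funext v
  have := hall v
  simp only [Finset.sum_apply, Pi.smul_apply, smul_eq_mul, Pi.zero_apply, ← hu]
  exact this

theorem nil_sub {R : Type} [Ring R] (A Q : R) (k : ℕ) (hAQ : A * Q = Q) (hQA : Q * A = Q)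
    (hQQ : Q * Q = Q) (hAkQ : A ^ k = Q) : IsNilpotent (A - Q) := by
  have hQAj : ∀ m : ℕ, Q * A ^ m = Q := by
    intro m
    induction m with
    | zero => simp
    | succ m ihm => rw [pow_succ, ← mul_assoc, ihm, hQA]
  have hpow : ∀ j : ℕ, (A - Q) ^ (j + 1) = A ^ (j + 1) - Q := by
    intro j
    induction j with
    | zero => simp
    | succ j ih =>
      rw [pow_succ' (A - Q), ih, sub_mul, mul_sub, mul_sub, hAQ, hQQ, hQAj, ← pow_succ']
      abel
  exact ⟨k + 1, by rw [hpow, pow_succ', hAkQ, hAQ, sub_self]⟩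

theorem trace_obstruction (p : List α → ℝ) (k D : ℕ) (h0 : p [] = 1)
    (hR : ∀ w, ∑ x, p (w ++ [x]) = p w) (hL : ∀ w, ∑ x, p (x :: w) = p w)
    (hP : ∀ u x v, p (u ++ x :: x :: v) = 0)
    (hk : ∀ u v, ((sh α) ^ k) (fun v => p (u ++ v)) v = p u * p v)
    (hD : ∀ (u : Fin (D + 1) → List α) (b : ℕ), ∃ c : Fin (D + 1) → ℝ, c ≠ 0 ∧
      ∀ v : List α, v.length ≤ b → ∑ i, c i * p (u i ++ v) = 0) : False := by
  have hfin := finite_span p D hD
  set V := Submodule.span ℝ (Set.range (fun u : List α => fun v => p (u ++ v))) with hV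
  have hrow : ∀ u : List α, (fun v => p (u ++ v)) ∈ V := fun u => Submodule.subset_span ⟨u, rfl⟩
  have hpre : ∀ x, ∀ f ∈ V, pre x f ∈ V := by
    intro x f hf
    have : V ≤ V.comap (pre x) := by
      rw [hV, Submodule.span_le]
      rintro _ ⟨u, rfl⟩
      have := hrow (u ++ [x])
      simpa [pre] using this
    exact this hf
  let T : α → Module.End ℝ V := fun x => (pre x).restrict (hpre x)
  let A : Module.End ℝ V := ∑ x, T x
  have hA : ∀ f : V, (A f).1 = sh α f.1 := by
    intro f
    simp [A, T, sh, LinearMap.sum_apply]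
  have hAk : ∀ (j : ℕ) (f : V), ((A ^ j) f).1 = ((sh α) ^ j) f.1 := by
    intro j
    induction j with
    | zero => intro f; simp
    | succ j ih => intro f; rw [pow_succ', pow_succ', Module.End.mul_apply, Module.End.mul_apply, hA, ih]
  have ext : ∀ {W : Type} [AddCommGroup W] [Module ℝ W] (F G : V →ₗ[ℝ] W),
      (∀ u, F ⟨_, hrow u⟩ = G ⟨_, hrow u⟩) → F = G := by
    intro W _ _ F G h
    ext ⟨f, hf⟩
    induction hf using Submodule.span_induction with
    | mem f hf => obtain ⟨u, rfl⟩ := hf; exact h u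
    | zero => exact (map_zero F).trans (map_zero G).symm
    | add f g hf hg ihf ihg =>
      have e1 := map_add F ⟨f, hf⟩ ⟨g, hg⟩
      have e2 := map_add G ⟨f, hf⟩ ⟨g, hg⟩
      rw [ihf, ihg, ← e2] at e1
      exact e1
    | smul r f hf ih =>
      have e1 := map_smul F r ⟨f, hf⟩
      have e2 := map_smul G r ⟨f, hf⟩
      rw [ih, ← e2] at e1
      exact e1
  have hT : ∀ x, LinearMap.trace ℝ V (T x) = 0 := by
    intro x
    refine (LinearMap.isNilpotent_trace_of_isNilpotent ⟨2, ?_⟩).eq_zero
    refine ext _ _ (fun u => ?_)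
    apply Subtype.ext
    funext v
    exact hP u x v
  have htA : LinearMap.trace ℝ V A = 0 := by simp [A, map_sum, hT]
  let ev : V →ₗ[ℝ] ℝ := (LinearMap.proj []).comp V.subtype
  let r0 : V := ⟨_, hrow []⟩
  let Q : Module.End ℝ V := ev.smulRight r0
  have hev0 : ev r0 = 1 := h0
  have htQ : LinearMap.trace ℝ V Q = 1 := by rw [LinearMap.trace_smulRight, hev0]
  have hAr : A r0 = r0 := by
    apply Subtype.ext
    rw [hA]
    funext v
    rw [sh_apply]
    exact hL v
  have hevA : ev ∘ₗ A = ev := by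
    refine ext _ _ (fun u => ?_)
    change (A ⟨_, hrow u⟩).1 [] = p (u ++ [])
    rw [hA, sh_apply, List.append_nil]
    exact hR u
  have hAQ : A * Q = Q := by
    ext1 f
    simp [Q, hAr]
  have hQA : Q * A = Q := by
    ext1 f
    have : ev (A f) = ev f := LinearMap.congr_fun hevA f
    simp [Q, this]
  have hQQ : Q * Q = Q := by
    ext1 f
    simp [Q, hev0]
  have hAkQ : A ^ k = Q := by
    refine ext _ _ (fun u => ?_)
    apply Subtype.ext
    rw [hAk]
    funext v
    rw [hk]
    simp [Q, ev, r0]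
  have hnil : IsNilpotent (A - Q) := nil_sub (R := Module.End ℝ V) A Q k hAQ hQA hQQ hAkQ
  have := (LinearMap.isNilpotent_trace_of_isNilpotent hnil).eq_zero
  have e : LinearMap.trace ℝ V (A - Q) = LinearMap.trace ℝ V A - LinearMap.trace ℝ V Q :=
    (LinearMap.trace ℝ V).map_sub A Q
  rw [e, htA, htQ] at this
  norm_num at this

end Pool.Agent.Lib.MP_83a7f3_pr
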