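import Pool.Agent.Lib.MP_83a7f3_pr.Gauge

set_option autoImplicit false

/-! Blocks read along an arbitrary direction have bounded Hankel rank. -/

namespace Pool.Agent.Lib.MP_83a7f3_pr

open MeasureTheory ProbabilityTheory Set

variable {d q : ℕ} (v : Fin d → ℤ) (W : Finset (Fin d → ℤ))

/-- The event that a word of blocks is read along the direction `v`, starting at `s`. -/
def evb : ℤ → List (W → Fin q) → Set ((Fin d → ℤ) → Fin q)
  | _, [] => univ
  | s, a :: w => {x | (fun u : W => x (u.1 + s • v)) = a} ∩ evb (s + 1) w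

theorem evb_append (u w : List (W → Fin q)) :
    ∀ s : ℤ, evb v W s (u ++ w) = evb v W s u ∩ evb v W (s + u.length) w := by
  induction u with
  | nil => intro s; simp [evb]
  | cons a u ih =>
    intro s
    simp only [List.cons_append, evb, ih, List.length_cons, inter_assoc]
    congr 3
    push_cast
    ring

theorem meas_blk {Δ : Set (Fin d → ℤ)} {s : ℤ} (h : ∀ u ∈ W, u + s • v ∈ Δ) (a : W → Fin q) :
    MeasurableSet[cylinderEvents Δ]
      {x : (Fin d → ℤ) → Fin q | (fun u : W => x (u.1 + s • v)) = a} := by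
  simp only [funext_iff, ofPred_forall]
  exact MeasurableSet.iInter fun u => meas_coord (h u u.2) _

theorem meas_evb {Δ : Set (Fin d → ℤ)} (w : List (W → Fin q)) :
    ∀ s : ℤ, (∀ t : ℤ, s ≤ t → t < s + w.length → ∀ u ∈ W, u + t • v ∈ Δ) →
      MeasurableSet[cylinderEvents Δ] (evb v W s w) := by
  induction w with
  | nil => intro s _; exact MeasurableSet.univ
  | cons a w ih =>
    intro s h
    refine (meas_blk v W (h s le_rfl ?_) a).inter (ih (s + 1) (fun t h1 h2 => h t ?_ ?_))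
    · simp
    · omega
    · simp only [List.length_cons]; push_cast; omega

theorem meas_evb' (w : List (W → Fin q)) (s : ℤ) : MeasurableSet (evb v W s w) :=
  to_pi (meas_evb v W (Δ := univ) w s (fun _ _ _ _ _ => mem_univ _))

theorem evb_shift (t : ℤ) (w : List (W → Fin q)) :
    ∀ s : ℤ, (fun (x : (Fin d → ℤ) → Fin q) u => x (u + t • v)) ⁻¹' evb v W s w =
      evb v W (s + t) w := by
  induction w with
  | nil => intro s; simp [evb]
  | cons a w ih =>
    intro s
    simp only [evb, preimage_inter, ih, preimage_ofPred_eq, add_assoc, ← add_smul]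
    congr 2
    ring

theorem real_evb_shift {μ : Measure ((Fin d → ℤ) → Fin q)} (h : ShiftInvariant μ)
    (w : List (W → Fin q)) (s : ℤ) : μ.real (evb v W s w) = μ.real (evb v W 0 w) := by
  have hm : Measurable (fun (x : (Fin d → ℤ) → Fin q) (u : Fin d → ℤ) => x (u + s • v)) :=
    measurable_pi_lambda _ (fun u => measurable_pi_apply (u + s • v))
  have := evb_shift v W s w 0
  rw [zero_add] at this
  rw [← this, measureReal_def, measureReal_def, ← Measure.map_apply hm (meas_evb' v W w 0), h]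

theorem sum_firstb {μ : Measure ((Fin d → ℤ) → Fin q)} [IsFiniteMeasure μ]
    {S : Set ((Fin d → ℤ) → Fin q)} (hS : MeasurableSet S) (s : ℤ) (w : List (W → Fin q)) :
    ∑ a, μ.real (S ∩ evb v W s (a :: w)) = μ.real (S ∩ evb v W (s + 1) w) := by
  rw [split_real μ (fun x (u : W) => x (u.1 + s • v))
    (fun b => to_pi (meas_blk v W (Δ := univ) (fun _ _ => mem_univ _) b))
    (hS.inter (meas_evb' v W w (s + 1)))]
  refine Finset.sum_congr rfl (fun a _ => ?_)
  congr 1
  simp only [evb]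
  ext x
  simp only [mem_inter_iff, mem_ofPred_eq]
  tauto

theorem rank_block {μ : Measure ((Fin d → ℤ) → Fin q)} [IsProbabilityMeasure μ]
    (hS : ShiftInvariant μ) (hM : MarkovRandomField μ) {i : Fin d} (hi : 1 ≤ v i) {V r : ℕ}
    (hV : ∀ l, |v l| ≤ V) (hr : ∀ u ∈ W, ∀ l, |u l| ≤ r) (k : ℕ)
    (hk : ∀ A B : Set (Fin d → ℤ), (∀ u ∈ A, ∀ v ∈ B, (k : ℤ) ≤ dist1 u v) →
      Indep (cylinderEvents A) (cylinderEvents B) μ) :
    ∃ D : ℕ, ∀ (u : Fin (D + 1) → List (W → Fin q)) (b : ℕ), ∃ c : Fin (D + 1) → ℝ, c ≠ 0 ∧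
      ∀ w : List (W → Fin q), w.length ≤ b → ∑ j, c j * μ.real (evb v W 0 (u j ++ w)) = 0 := by
  classical
  have hmul : ∀ (t T : ℤ) l, |t| ≤ T → |t * v l| ≤ T * V := fun t T l h => by
    rw [abs_mul]
    exact mul_le_mul h (hV l) (abs_nonneg _) ((abs_nonneg _).trans h)
  have hpos : ∀ t : ℤ, (0 ≤ t → t ≤ t * v i) ∧ (t ≤ 0 → t * v i ≤ t) := fun t =>
    ⟨fun h => by nlinarith, fun h => by nlinarith⟩
  obtain ⟨ρ, hρ⟩ : ∃ ρ : ℤ, ρ = (2 * r + k) * V := ⟨_, rfl⟩
  let N : Finset (Fin d → ℤ) :=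
    (Finset.Icc (fun _ => -(ρ + r + k)) fun _ => ρ + r + k).filter fun w => w i ≤ r
  have hN : ∀ w, w ∈ N ↔ (∀ l, |w l| ≤ ρ + r + k) ∧ w i ≤ r := fun w => by
    simp only [N, Finset.mem_filter, Finset.mem_Icc, Pi.le_def, abs_le, forall_and]
  refine ⟨Fintype.card ((↑N : Set (Fin d → ℤ)) → Fin q), fun u b => ?_⟩
  obtain ⟨a, ha⟩ : ∃ a : ℕ, ∀ j, (u j).length ≤ a := ⟨∑ j, (u j).length, fun j =>
    Finset.single_le_sum (f := fun j => (u j).length) (fun _ _ => Nat.zero_le _)
      (Finset.mem_univ j)⟩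
  obtain ⟨M, hMM⟩ : ∃ M : ℤ, M = (a + b) * V := ⟨_, rfl⟩
  let A : Finset (Fin d → ℤ) :=
    (Finset.Icc (fun _ => -(M + r + k)) fun _ => M + r + k).filter fun w => r < w i
  have hA : ∀ w, w ∈ A ↔ (∀ l, |w l| ≤ M + r + k) ∧ r < w i := fun w => by
    simp only [A, Finset.mem_filter, Finset.mem_Icc, Pi.le_def, abs_le, forall_and]
  let F : Set (Fin d → ℤ) := bdry A \ ↑N
  have hfar : ∀ t : ℤ, -(a : ℤ) ≤ t → t < b → ∀ y ∈ W, ∀ w ∈ F,
      (k : ℤ) ≤ dist1 (y + t • v) w := by
    rintro t ht0 ht y hy w ⟨⟨hwA, z, hz, hzw⟩, hwN⟩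
    have h0 : ∀ l, |y l + t * v l - w l| ≤ dist1 (y + t • v) w := fun l => le_dist1 (y + t • v) w l
    by_cases h1 : ∀ l, |w l| ≤ M + r + k
    · have h2 := le_dist1 z w i
      have h3 := ((hA z).1 hz).2
      have h4 : ¬ r < w i := fun e => hwA ((hA w).2 ⟨h1, e⟩)
      rw [hzw, abs_le] at h2
      obtain ⟨l, hl⟩ := not_forall.1 fun e => hwN ((hN w).2 ⟨e, not_lt.1 h4⟩)
      by_cases h5 : |t| ≤ 2 * r + k
      · have h6 := abs_le.1 (hρ ▸ hmul t _ l h5)
        have h7 := abs_le.1 (hr y hy l)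
        have h8 := abs_le.1 (h0 l)
        rw [abs_le] at hl
        omega
      · have h6 := hpos t
        have h7 := abs_le.1 (hr y hy i)
        have h8 := abs_le.1 (h0 i)
        rw [abs_le] at h5
        omega
    · obtain ⟨l, hl⟩ := not_forall.1 h1
      have h6 := abs_le.1 (hMM ▸ hmul t (a + b) l (abs_le.2 ⟨by omega, by omega⟩))
      have h7 := abs_le.1 (hr y hy l)
      have h8 := abs_le.1 (h0 l)
      rw [abs_le] at hl
      omega
  have hFfin : F.Finite := (bdry_finite A).subset sdiff_subset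
  have := hFfin.fintype
  obtain ⟨y, hy⟩ : ∃ y : F → Fin q, μ.real {x | (fun w : F => x w) = y} ≠ 0 := by
    by_contra hc
    push Not at hc
    have := split_real μ (fun x => fun w : F => x w)
      (fun y => to_pi (meas_pat (Δ := univ) (subset_univ _) y)) MeasurableSet.univ
    simp [hc] at this
  let Y : Set ((Fin d → ℤ) → Fin q) := {x | (fun w : F => x w) = y}
  let L : Fin _ → ((↑N : Set (Fin d → ℤ)) → Fin q) → Set ((Fin d → ℤ) → Fin q) := fun j c =>
    evb v W (-((u j).length : ℤ)) (u j) ∩ Y ∩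
      {x | (fun w : (↑N : Set (Fin d → ℤ)) => x w) = c}
  have hLm : ∀ j c, MeasurableSet[cylinderEvents (↑A : Set (Fin d → ℤ))ᶜ] (L j c) := by
    intro j c
    refine MeasurableSet.inter (MeasurableSet.inter (meas_evb v W _ _ ?_) (meas_pat ?_ y))
      (meas_pat ?_ c)
    · intro t _ ht z hz h
      have h1 : r < z i + t * v i := ((hA _).1 h).2
      have h2 := hpos t
      have h3 := abs_le.1 (hr z hz i)
      omega
    · intro w hw
      exact hw.1.1
    · intro w hw h
      have h1 := ((hA _).1 h).2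
      have h2 := ((hN _).1 hw).2
      omega
  have hdep : ¬ LinearIndependent ℝ (fun j => fun c => μ.real (L j c)) := by
    intro h
    have := h.fintype_card_le_finrank
    simp at this
  obtain ⟨lam, hlam, j0, hj0⟩ := Fintype.not_linearIndependent_iff.1 hdep
  refine ⟨lam, fun e => hj0 (congrFun e j0), fun w hw => ?_⟩
  have hR := meas_evb v W (Δ := ↑A ∪ ↑N) w 0 fun t h1 h2 z hz => by
    have h3 := hpos t
    have h4 : ∀ (T : ℤ) l, |t| ≤ T → |z l + t * v l| ≤ T * V + r + k := fun T l h => by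
      have h5 := abs_le.1 (hmul t T l h)
      have h6 := abs_le.1 (hr z hz l)
      rw [abs_le]
      omega
    have h5 := abs_le.1 (hr z hz i)
    by_cases h : r < z i + t * v i
    · exact Or.inl ((hA _).2 ⟨fun l => hMM ▸ h4 _ l (abs_le.2 ⟨by omega, by omega⟩), h⟩)
    · exact Or.inr ((hN _).2 ⟨fun l => hρ ▸ h4 _ l (abs_le.2 ⟨by omega, by omega⟩), not_lt.1 h⟩)
  choose G hG using fun c : (↑N : Set (Fin d → ℤ)) → Fin q => markov_factor hM A
    {x | (fun z => if h : z ∈ N then c ⟨z, h⟩ else x z) ∈ evb v W 0 w}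
    (fun x x' h => (cyl_congr hR fun z hz => by
      split_ifs with h'
      · rfl
      · exact h z (hz.resolve_right h')).1)
    (fun w => if h : w.1 ∈ N then c ⟨w.1, h⟩ else y ⟨w.1, w.2, h⟩)
  have key : ∀ j, μ.real (evb v W 0 (u j ++ w)) * μ.real Y = ∑ c, G c * μ.real (L j c) := by
    intro j
    have hind := hk {z | ∃ t : ℤ, -(a : ℤ) ≤ t ∧ t < b ∧ ∃ y ∈ W, z = y + t • v} F
      (by rintro _ ⟨t, ht0, ht, y, hy, rfl⟩ w hw; exact hfar t ht0 ht y hy w hw)
    have h1 := (Indep_iff _ _ _).1 hind (evb v W (-((u j).length : ℤ)) (u j ++ w)) Y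
      (meas_evb v W _ _ (fun t ht0 ht z hz => ⟨t, by have := ha j; omega, by
        simp only [List.length_append] at ht; push_cast at ht; omega, z, hz, rfl⟩))
      (meas_pat subset_rfl y)
    have h2 : μ.real (evb v W (-((u j).length : ℤ)) (u j ++ w) ∩ Y) =
        μ.real (evb v W 0 (u j ++ w)) * μ.real Y := by
      rw [← real_evb_shift v W hS _ (-((u j).length : ℤ)), measureReal_def, h1,
        ENNReal.toReal_mul]
      rfl
    rw [← h2, split_real μ (fun x => fun w : (↑N : Set (Fin d → ℤ)) => x w)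
      (fun c => to_pi (meas_pat (Δ := univ) (subset_univ _) c))
      ((meas_evb' v W _ _).inter (to_pi (meas_pat (Δ := univ) (subset_univ _) y)))]
    refine Finset.sum_congr rfl (fun c _ => ?_)
    rw [← hG c (L j c) (hLm j c)]
    · congr 1
      rw [evb_append, neg_add_cancel]
      ext x
      have h3 : (fun w : (↑N : Set (Fin d → ℤ)) => x w) = c →
          (fun z => if h : z ∈ N then c ⟨z, h⟩ else x z) = x := by
        rintro rfl
        funext z
        split_ifs <;> rfl
      simp only [L, mem_inter_iff, mem_ofPred_eq]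
      exact ⟨fun ⟨⟨⟨e1, e2⟩, e3⟩, e4⟩ => ⟨⟨⟨e1, e3⟩, e4⟩, by rwa [h3 e4]⟩,
        fun ⟨⟨⟨e1, e3⟩, e4⟩, e2⟩ => ⟨⟨⟨e1, by rwa [h3 e4] at e2⟩, e3⟩, e4⟩⟩
    · rintro x ⟨⟨-, hx1⟩, hx2⟩
      funext w
      split_ifs with h
      · exact congrFun hx2 ⟨w.1, h⟩
      · exact congrFun hx1 ⟨w.1, w.2, h⟩
  have hz : (∑ j, lam j * μ.real (evb v W 0 (u j ++ w))) * μ.real Y = 0 := by
    rw [Finset.sum_mul]
    simp only [mul_assoc, key, Finset.mul_sum]
    rw [Finset.sum_comm]
    refine Finset.sum_eq_zero (fun c _ => ?_)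
    have := congrFun hlam c
    simp only [Finset.sum_apply, Pi.smul_apply, smul_eq_mul, Pi.zero_apply] at this
    calc ∑ j, lam j * (G c * μ.real (L j c)) = G c * ∑ j, lam j * μ.real (L j c) := by
          rw [Finset.mul_sum]
          exact Finset.sum_congr rfl (fun j _ => by ring)
      _ = 0 := by rw [this, mul_zero]
  exact (mul_eq_zero.1 hz).resolve_right hy

theorem exists_bound (W : Finset (Fin d → ℤ)) : ∃ r : ℕ, ∀ u ∈ W, ∀ l, |u l| ≤ r := by
  refine ⟨W.sup fun u => Finset.univ.sup fun l => (u l).natAbs, fun u hu l => ?_⟩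
  rw [← Int.natCast_natAbs]
  exact_mod_cast (Finset.le_sup (f := fun l => (u l).natAbs) (Finset.mem_univ l)).trans
    (Finset.le_sup (f := fun u : Fin d → ℤ => Finset.univ.sup fun l => (u l).natAbs) hu)

theorem block_pos {μ : Measure ((Fin d → ℤ) → Fin q)} [IsProbabilityMeasure μ]
    (hS : ShiftInvariant μ) (hF : FinitelyDependent μ) (hM : MarkovRandomField μ) {i : Fin d}
    (hi : 1 ≤ v i) : μ {x | ∀ u ∈ W, x (u + v) = x u} ≠ 0 := by
  classical
  intro hP
  obtain ⟨k, hk⟩ := hF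
  obtain ⟨V, hV⟩ := exists_bound {v}
  obtain ⟨r, hr⟩ := exists_bound W
  obtain ⟨D, hD⟩ := rank_block v W hS hM hi (hV v (Finset.mem_singleton_self v)) hr k hk
  refine trace_obstruction (fun w => μ.real (evb v W 0 w)) (2 * r + k) D ?_ ?_ ?_ ?_ ?_ hD
  · simp [evb]
  · intro w
    simp only [evb_append]
    rw [sum_firstb v W (meas_evb' v W w 0)]
    simp [evb]
  · intro w
    have := sum_firstb v W (μ := μ) MeasurableSet.univ 0 w
    simp only [univ_inter] at this
    rw [this, real_evb_shift v W hS]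
  · intro u x w
    refine le_antisymm ?_ measureReal_nonneg
    have h1 : μ.real (evb v W 0 [x, x]) = 0 := by
      rw [measureReal_def, measure_mono_null ?_ hP, ENNReal.toReal_zero]
      rintro c ⟨h1, h2, -⟩ z hz
      simpa using (congrFun h2 ⟨z, hz⟩).trans (congrFun h1 ⟨z, hz⟩).symm
    rw [← h1, ← real_evb_shift v W hS [x, x] (0 + u.length)]
    refine measureReal_mono fun c hc => ?_
    rw [evb_append] at hc
    exact ⟨hc.2.1, hc.2.2.1, trivial⟩
  · intro u
    have h1 : ∀ (j : ℕ) (w : List (W → Fin q)),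
        ((sh (W → Fin q)) ^ j) (fun w => μ.real (evb v W 0 (u ++ w))) w =
          μ.real (evb v W 0 u ∩ evb v W (u.length + j) w) := by
      intro j
      induction j with
      | zero => intro w; simp [evb_append]
      | succ j ih =>
        intro w
        rw [pow_succ', Module.End.mul_apply, sh_apply]
        simp only [ih]
        rw [sum_firstb v W (meas_evb' v W u 0)]
        congr 3
    intro w
    rw [h1]
    have hind := hk {z | ∃ t : ℤ, t < u.length ∧ ∃ y ∈ W, z = y + t • v}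
      {z | ∃ t : ℤ, u.length + (2 * r + k : ℕ) ≤ t ∧ ∃ y ∈ W, z = y + t • v} (by
        rintro _ ⟨s, hs, y, hy, rfl⟩ _ ⟨t, ht, z, hz, rfl⟩
        have h2 : |y i + s * v i - (z i + t * v i)| ≤ _ := le_dist1 (y + s • v) (z + t • v) i
        have h3 := abs_le.1 (hr y hy i)
        have h4 := abs_le.1 (hr z hz i)
        have h5 : t - s ≤ t * v i - s * v i := by
          have : (0 : ℤ) ≤ t - s := by omega
          nlinarith
        rw [abs_le] at h2
        omega)
    have h2 := (Indep_iff _ _ _).1 hind (evb v W 0 u) (evb v W (u.length + (2 * r + k : ℕ)) w)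
      (meas_evb v W _ _ (fun t _ ht z hz => ⟨t, by omega, z, hz, rfl⟩))
      (meas_evb v W _ _ (fun t ht _ z hz => ⟨t, ht, z, hz, rfl⟩))
    rw [← real_evb_shift v W hS w (u.length + (2 * r + k : ℕ)), measureReal_def, h2,
      ENNReal.toReal_mul]
    rfl

theorem periodic_point {μ : Measure ((Fin d → ℤ) → Fin q)} [IsProbabilityMeasure μ]
    (hS : ShiftInvariant μ) (hF : FinitelyDependent μ) (hM : MarkovRandomField μ) :
    ∃ x, InSupport μ x ∧ ∀ u, x (u + v) = x u := by
  classical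
  have h1 : ∀ W : Finset (Fin d → ℤ), μ {x | ∀ u ∈ W, x (u + v) = x u} ≠ 0 := by
    intro W
    by_cases hv : v = 0
    · simp [hv]
    obtain ⟨i, hi⟩ := Function.ne_iff.1 hv
    rcases lt_or_gt_of_ne hi with h | h
    · refine fun e => block_pos (-v) (W.image (· + v)) hS hF hM (i := i)
        (by simp only [Pi.neg_apply, Pi.zero_apply] at h ⊢; omega)
        (measure_mono_null ?_ e)
      intro x hx u hu
      simpa using (hx _ (Finset.mem_image_of_mem _ hu)).symm
    · exact block_pos v W hS hF hM (i := i) h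
  let T : Finset (Fin d → ℤ) → Set ((Fin d → ℤ) → Fin q) := fun B =>
    {x | 0 < μ {y | ∀ u ∈ B, y u = x u}} ∩ {x | ∀ u ∈ B, x (u + v) = x u}
  have h2 : ∀ B, IsClosed (T B) := fun B => by
    refine IsClosed.inter ?_ ?_
    · convert (isClosed_discrete {p : B → Fin q | 0 < μ {y | ∀ u : B, y u = p u}}).preimage
        (f := fun (x : (Fin d → ℤ) → Fin q) (u : B) => x u.1)
        (continuous_pi fun u : B => continuous_apply u.1) using 1
      ext x
      simp
    · simp only [ofPred_forall]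
      exact isClosed_biInter fun u _ => isClosed_eq (continuous_apply _) (continuous_apply _)
  have h3 : ∀ B B', B ⊆ B' → T B' ⊆ T B := fun B B' h x hx =>
    ⟨hx.1.trans_le (measure_mono fun y hy u hu => hy u (h hu)), fun u hu => hx.2 u (h hu)⟩
  obtain ⟨x, hx⟩ := IsCompact.nonempty_iInter_of_directed_nonempty_isCompact_isClosed T
    (fun B B' => ⟨B ∪ B', h3 _ _ Finset.subset_union_left, h3 _ _ Finset.subset_union_right⟩)
    (fun B => by
      by_contra hc
      refine h1 B (measure_mono_null (t := ⋃ p ∈ {p : B → Fin q | μ {y | ∀ u : B, y u = p u} = 0},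
        {y | ∀ u : B, y u = p u}) (fun x hx => ?_)
        ((measure_biUnion_null_iff (to_countable _)).2 fun p hp => hp))
      refine mem_biUnion (x := fun u : B => x u) ?_ fun _ => rfl
      by_contra h4
      exact hc ⟨x, by simpa using pos_iff_ne_zero.2 h4, hx⟩)
    (fun B => (h2 B).isCompact) h2
  exact ⟨x, fun B => (mem_iInter.1 hx B).1,
    fun u => (mem_iInter.1 hx {u}).2 u (Finset.mem_singleton_self u)⟩

theorem cyclic_of_minors (Λ : AddSubgroup (Fin d → ℤ))
    (h : ∀ v ∈ Λ, ∀ w ∈ Λ, ∀ i j, v i * w j = w i * v j) : ∃ v, Λ = AddSubgroup.zmultiples v := by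
  by_cases h0 : Λ = ⊥
  · exact ⟨0, by simp [h0]⟩
  obtain ⟨⟨v, hv⟩, hv0⟩ := AddSubgroup.ne_bot_iff_exists_ne_zero.1 h0
  obtain ⟨i, hi⟩ := Function.ne_iff.1 fun e => hv0 (Subtype.ext e)
  obtain ⟨g, hg⟩ := Int.subgroup_cyclic (Λ.map (Pi.evalAddMonoidHom (fun _ => ℤ) i))
  rw [← AddSubgroup.zmultiples_eq_closure] at hg
  obtain ⟨w, hw, rfl⟩ : g ∈ Λ.map (Pi.evalAddMonoidHom (fun _ => ℤ) i) :=
    hg ▸ AddSubgroup.mem_zmultiples g
  refine ⟨w, le_antisymm (fun z hz => ?_) (AddSubgroup.zmultiples_le_of_mem hw)⟩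
  obtain ⟨n, hn⟩ : z i ∈ AddSubgroup.zmultiples (w i) := hg ▸ AddSubgroup.mem_map_of_mem _ hz
  refine ⟨n, funext fun j => mul_left_cancel₀ hi ?_⟩
  have h1 := h v hv w hw i j
  have h2 := h v hv z hz i j
  have h3 : n * w i = z i := hn
  show v i * (n * w j) = v i * z j
  linear_combination n * h1 - h2 + v j * h3

theorem classify (Λ : AddSubgroup (Fin d → ℤ)) :
    (∀ (q : ℕ) (μ : Measure ((Fin d → ℤ) → Fin q)), IsProbabilityMeasure μ → ShiftInvariant μ →
      FinitelyDependent μ → MarkovRandomField μ →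
      ∃ x, InSupport μ x ∧ ∀ t ∈ Λ, ∀ u, x (u + t) = x u) ↔
      ∃ v, Λ = AddSubgroup.zmultiples v := by
  classical
  constructor
  · refine fun h => cyclic_of_minors Λ fun v hv w hw i j => ?_
    obtain ⟨r, hr⟩ := exists_bound {v, w}
    have hR : (0 : Fin d → ℤ) ≤ fun _ => (r : ℤ) + 2 := fun _ => by
      simp only [Pi.zero_apply]
      omega
    have h1 : ∀ z ∈ ({v, w} : Finset (Fin d → ℤ)),
        z ∈ Finset.Icc (-fun _ => (r : ℤ) + 2) fun _ => (r : ℤ) + 2 := fun z hz =>
      Finset.mem_Icc.2 ⟨fun l => by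
        have := abs_le.1 (hr z hz l)
        show -((r : ℤ) + 2) ≤ z l
        omega, fun l => by
        have := abs_le.1 (hr z hz l)
        show z l ≤ (r : ℤ) + 2
        omega⟩
    obtain ⟨x, hx, hx'⟩ := h _ (law ((v i * w j - w i * v j).natAbs + 1) i j fun _ => (r : ℤ) + 2)
      (law_prob _ i j _ hR) (law_shift _ i j _ hR) (law_dep _ i j _ hR)
      (law_markov _ i j _ fun _ => by omega)
    have h2 := law_flux _ i j _ hR hx (h1 v (by simp)) (h1 w (by simp))
      (by simpa using hx' v hv 0) (by simpa using hx' w hw 0)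
    exact sub_eq_zero.1 (Int.eq_zero_of_dvd_of_natAbs_lt_natAbs
      ((ZMod.intCast_zmod_eq_zero_iff_dvd _ _).1 h2) (by rw [Int.natAbs_natCast]; omega))
  · rintro ⟨v, rfl⟩ q μ hμ hS hF hM
    obtain ⟨x, hx, hx'⟩ := periodic_point v hS hF hM
    refine ⟨x, hx, ?_⟩
    rintro _ ⟨n, rfl⟩ u
    induction n using Int.induction_on with
    | zero => simp
    | succ n ih => simpa [add_smul, ← add_assoc, hx'] using ih
    | pred n ih =>
      rw [← ih, ← hx']
      congr 1
      simp only [sub_smul, one_smul]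
      abel

end Pool.Agent.Lib.MP_83a7f3_pr
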