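import Mathlib

set_option autoImplicit false

/-! Random fields on `ℤ^d` with `q` colours, given by their law on configurations. -/

namespace Pool.Agent.Lib.MP_83a7f3_pr

open MeasureTheory ProbabilityTheory

/-- Graph distance in `ℤ^d`. -/
def dist1 {d : ℕ} (u v : Fin d → ℤ) : ℤ := ∑ i, |u i - v i|

/-- The points outside `A` adjacent to a point of `A`. -/
def bdry {d : ℕ} (A : Finset (Fin d → ℤ)) : Set (Fin d → ℤ) :=
  {w | w ∉ A ∧ ∃ v ∈ A, dist1 v w = 1}

/-- The law is invariant under all translations. -/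
def ShiftInvariant {d q : ℕ} (μ : Measure ((Fin d → ℤ) → Fin q)) : Prop :=
  ∀ t : Fin d → ℤ, μ.map (fun x v => x (v + t)) = μ

/-- Coordinates on sets at graph distance at least `k` are independent, for some `k`. -/
def FinitelyDependent {d q : ℕ} (μ : Measure ((Fin d → ℤ) → Fin q)) : Prop :=
  ∃ k : ℕ, ∀ A B : Set (Fin d → ℤ), (∀ u ∈ A, ∀ v ∈ B, (k : ℤ) ≤ dist1 u v) →
    Indep (cylinderEvents A) (cylinderEvents B) μ

/-- Almost every configuration is a proper colouring. -/
def SupportedOnProper {d q : ℕ} (μ : Measure ((Fin d → ℤ) → Fin q)) : Prop :=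
  ∀ᵐ x ∂μ, ∀ u v, dist1 u v = 1 → x u ≠ x v

/-- For each finite `A` and each pattern `a` on `A`, the conditional probability of seeing `a` on
`A` given all coordinates outside `A` is almost surely a function of the coordinates on the
boundary of `A`. -/
def MarkovRandomField {d q : ℕ} (μ : Measure ((Fin d → ℤ) → Fin q)) : Prop :=
  ∀ (A : Finset (Fin d → ℤ)) (a : A → Fin q), ∃ g : (bdry A → Fin q) → ℝ,
    μ[Set.indicator {x | ∀ v : A, x v = a v} (fun _ => (1 : ℝ)) |
        cylinderEvents (↑A : Set (Fin d → ℤ))ᶜ] =ᵐ[μ] fun x => g (fun w => x w)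

end Pool.Agent.Lib.MP_83a7f3_pr
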