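import Pool.Agent.Lib.MP_83a7f3_pr.Defs

set_option autoImplicit false

namespace Pool.Agent.Lib.MP_83a7f3_pr

open MeasureTheory

/-- The configuration `x` lies in the support of the law: each of its finite patterns has positive
probability. -/
def InSupport {d q : ℕ} (μ : Measure ((Fin d → ℤ) → Fin q)) (x : (Fin d → ℤ) → Fin q) : Prop :=
  ∀ B : Finset (Fin d → ℤ), 0 < μ {y | ∀ v ∈ B, y v = x v}

end Pool.Agent.Lib.MP_83a7f3_pr
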