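import Pool.Agent.Lib.MP_83a7f3_pr.Grid
import Pool.Agent.Lib.MP_83a7f3_pr.Supp

set_option autoImplicit false

/-! A gauge field with constant flux: a finitely dependent Markov random field. -/

namespace Pool.Agent.Lib.MP_83a7f3_pr

open MeasureTheory ProbabilityTheory Set

variable {d : ℕ}

theorem cyl_congr {β : Type} [MeasurableSpace β] {Δ : Set (Fin d → ℤ)}
    {S : Set ((Fin d → ℤ) → β)} (hS : MeasurableSet[cylinderEvents Δ] S)
    {x y : (Fin d → ℤ) → β} (h : ∀ u ∈ Δ, x u = y u) : x ∈ S ↔ y ∈ S := by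
  let m : MeasurableSpace ((Fin d → ℤ) → β) :=
    { MeasurableSet' := fun S => x ∈ S ↔ y ∈ S
      measurableSet_empty := Iff.rfl
      measurableSet_compl := fun _ h => not_congr h
      measurableSet_iUnion := fun f hf => by simp only [mem_iUnion, hf] }
  have hm : cylinderEvents (X := fun _ => β) Δ ≤ m := iSup₂_le fun u hu => by
    rintro _ ⟨T, -, rfl⟩
    show x u ∈ T ↔ y u ∈ T
    rw [h u hu]
  exact hm S hS

theorem meas_cyl {q : ℕ} (B : Finset (Fin d → ℤ)) (x : (Fin d → ℤ) → Fin q) :
    MeasurableSet {y : (Fin d → ℤ) → Fin q | ∀ v ∈ B, y v = x v} := by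
  simp only [ofPred_forall]
  exact MeasurableSet.biInter B.countable_toSet fun u _ =>
    to_pi (meas_coord (Δ := univ) (mem_univ u) (x u))

variable (N : ℕ) [NeZero N] (i j : Fin d) (R : Fin d → ℤ)

/-- Independent uniform phases. -/
noncomputable def phase (d N : ℕ) [NeZero N] : Measure ((Fin d → ℤ) → ZMod N) :=
  Measure.infinitePi fun _ => uniformOn univ

instance : IsProbabilityMeasure (phase d N) := by
  unfold phase
  infer_instance

theorem phase_inv (t : Fin d → ℤ) (κ : (Fin d → ℤ) → ZMod N) :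
    (phase d N).map (fun ψ s => ψ (s + t) + κ s) = phase d N := by
  have h1 : ∀ c : ZMod N, (uniformOn univ : Measure (ZMod N)).map (· + c) = uniformOn univ := by
    intro c
    ext s hs
    rw [Measure.map_apply (measurable_of_countable _) hs, uniformOn_univ, uniformOn_univ,
      measure_preimage_add_right]
  have h2 := Measure.map_infinitePi_infinitePi_of_inj
    (P := fun _ : Fin d → ℤ => (uniformOn univ : Measure (ZMod N))) (add_left_injective t)
  have h3 := Measure.infinitePi_map_pi (fun _ : Fin d → ℤ => (uniformOn univ : Measure (ZMod N)))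
    (f := fun s c => c + κ s) fun _ => measurable_of_countable _
  simp only [h1] at h3
  unfold phase
  conv_rhs => rw [← h3, ← h2]
  rw [Measure.map_map (by fun_prop) (by fun_prop)]
  rfl

/-- The twisted phase differences seen from a site. -/
def raw (ψ : (Fin d → ℤ) → ZMod N) (u : Fin d → ℤ) : Finset.Icc (-R) R → ZMod N :=
  fun w => ψ (u + w) - ψ u + ((u i * w.1 j : ℤ) : ZMod N)

/-- The field. -/
noncomputable def fld (ψ : (Fin d → ℤ) → ZMod N) (u : Fin d → ℤ) :
    Fin (Fintype.card (Finset.Icc (-R) R → ZMod N)) := Fintype.equivFin _ (raw N i j R ψ u)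

theorem fld_meas (hR : 0 ≤ R) (A : Set (Fin d → ℤ)) :
    @Measurable _ _ (cylinderEvents {s | ∃ u ∈ A, ∃ w ∈ Finset.Icc (-R) R, s = u + w})
      (cylinderEvents A) (fld N i j R) := by
  refine (@measurable_cylinderEvents_iff _ _ _ (cylinderEvents _) _ _ _).2 fun u hu => ?_
  refine (measurable_of_countable (Fintype.equivFin _)).comp
    ((@measurable_pi_iff _ _ _ (cylinderEvents _) _ _).2 fun w => ?_)
  have h1 := measurable_cylinderEvent_apply (X := fun _ => ZMod N)
    (Δ := {s | ∃ u ∈ A, ∃ w ∈ Finset.Icc (-R) R, s = u + w}) ⟨u, hu, w.1, w.2, rfl⟩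
  have h2 := measurable_cylinderEvent_apply (X := fun _ => ZMod N)
    (Δ := {s | ∃ u ∈ A, ∃ w ∈ Finset.Icc (-R) R, s = u + w}) (i := u)
    ⟨u, hu, 0, Finset.mem_Icc.2 ⟨neg_nonpos.2 hR, hR⟩, (add_zero u).symm⟩
  exact (measurable_of_countable fun p : ZMod N × ZMod N =>
    p.1 - p.2 + ((u i * w.1 j : ℤ) : ZMod N)).comp (h1.prodMk h2)

theorem fld_meas' (hR : 0 ≤ R) : Measurable (fld N i j R) := by
  have h := (fld_meas N i j R hR univ).mono cylinderEvents_le_pi le_rfl
  rwa [cylinderEvents_univ] at h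

/-- The law of the field. -/
noncomputable def law : Measure ((Fin d → ℤ) → Fin (Fintype.card (Finset.Icc (-R) R → ZMod N))) :=
  (phase d N).map (fld N i j R)

theorem law_prob (hR : 0 ≤ R) : IsProbabilityMeasure (law N i j R) :=
  Measure.isProbabilityMeasure_map (fld_meas' N i j R hR).aemeasurable

theorem law_shift (hR : 0 ≤ R) : ShiftInvariant (law N i j R) := by
  intro t
  have h := fld_meas' N i j R hR
  unfold law
  conv_rhs => rw [← phase_inv N t fun s => ((t i * s j : ℤ) : ZMod N)]
  rw [Measure.map_map (by fun_prop) h, Measure.map_map h (by fun_prop)]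
  congr 1
  funext ψ u
  show Fintype.equivFin _ _ = Fintype.equivFin _ _
  congr 1
  funext w
  simp only [raw, Pi.add_apply, add_right_comm u t]
  push_cast
  ring

theorem law_dep (hR : 0 ≤ R) : FinitelyDependent (law N i j R) := by
  refine ⟨(∑ l, 2 * R l).toNat + 1, fun A B hAB => (Indep_iff _ _ _).2 fun S T hS hT => ?_⟩
  have h := fld_meas' N i j R hR
  have h1 := indep_iSup_of_disjoint (fun u => (measurable_pi_apply u).comap_le)
    (iIndepFun_infinitePi (P := fun _ : Fin d → ℤ => (uniformOn univ : Measure (ZMod N)))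
      (X := fun _ c => c) fun _ => measurable_id).iIndep
    (S := {s | ∃ u ∈ A, ∃ w ∈ Finset.Icc (-R) R, s = u + w})
    (T := {s | ∃ u ∈ B, ∃ w ∈ Finset.Icc (-R) R, s = u + w}) (disjoint_left.2 (by
      rintro _ ⟨u, hu, w, hw, rfl⟩ ⟨u', hu', w', hw', e⟩
      have h2 := hAB u hu u' hu'
      have h3 : dist1 u u' ≤ ∑ l, 2 * R l := Finset.sum_le_sum fun l _ => by
        have a1 : -R l ≤ w l := (Finset.mem_Icc.1 hw).1 l
        have a2 : w l ≤ R l := (Finset.mem_Icc.1 hw).2 l
        have a3 : -R l ≤ w' l := (Finset.mem_Icc.1 hw').1 l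
        have a4 : w' l ≤ R l := (Finset.mem_Icc.1 hw').2 l
        have a5 : u l + w l = u' l + w' l := congrFun e l
        rw [abs_le]
        omega
      omega))
  unfold law
  rw [Measure.map_apply h ((to_pi hS).inter (to_pi hT)), Measure.map_apply h (to_pi hS),
    Measure.map_apply h (to_pi hT), preimage_inter]
  exact (Indep_iff _ _ _).1 h1 _ _ (fld_meas N i j R hR A hS) (fld_meas N i j R hR B hT)

theorem law_markov (hR : ∀ l, 2 ≤ R l) : MarkovRandomField (law N i j R) := by
  classical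
  have hR0 : 0 ≤ R := fun l => by have := hR l; simp only [Pi.zero_apply]; omega
  have hf := fld_meas' N i j R hR0
  have := law_prob N i j R hR0
  intro A a
  have := (bdry_finite A).to_subtype
  let X : ((Fin d → ℤ) → ZMod N) → A → Finset.Icc (-R) R → ZMod N := fun ψ u => raw N i j R ψ u
  let K : AddSubgroup (A → Finset.Icc (-R) R → ZMod N) :=
    { carrier := {h | ∃ κ : (Fin d → ℤ) → ZMod N,
        (∀ u ∉ A, ∀ w ∈ Finset.Icc (-R) R, κ (u + w) = κ u) ∧
          h = fun (u : A) (w : Finset.Icc (-R) R) => κ (u.1 + w.1) - κ u.1}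
      zero_mem' := ⟨0, fun _ _ _ _ => rfl, by funext u w; simp⟩
      add_mem' := by
        rintro _ _ ⟨κ, h1, rfl⟩ ⟨κ', h2, rfl⟩
        refine ⟨κ + κ', fun u hu w hw => by simp only [Pi.add_apply, h1 u hu w hw, h2 u hu w hw],
          ?_⟩
        funext u w
        simp only [Pi.add_apply]
        ring
      neg_mem' := by
        rintro _ ⟨κ, h1, rfl⟩
        refine ⟨-κ, fun u hu w hw => by simp only [Pi.neg_apply, h1 u hu w hw], ?_⟩
        funext u w
        simp only [Pi.neg_apply]
        ring }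
  let a' : A → Finset.Icc (-R) R → ZMod N := fun u => (Fintype.equivFin _).symm (a u)
  let Γ : Set (bdry A → Fin (Fintype.card (Finset.Icc (-R) R → ZMod N))) :=
    {b | ∃ ψ, (fun w : bdry A => fld N i j R ψ w) = b ∧ X ψ - a' ∈ K}
  let E : Set ((Fin d → ℤ) → Fin (Fintype.card (Finset.Icc (-R) R → ZMod N))) :=
    {x | (fun w : bdry A => x w) ∈ Γ}
  have hE : MeasurableSet[cylinderEvents (↑A : Set (Fin d → ℤ))ᶜ] E := by
    have h1 : E = ⋃ b ∈ Γ, {x | (fun w : bdry A => x w) = b} := by
      ext x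
      simp [E]
    rw [h1]
    exact MeasurableSet.biUnion (to_countable _) fun b _ => meas_pat (fun w hw => hw.1) b
  have hE' : ∀ ψ, fld N i j R ψ ∈ E ↔ X ψ - a' ∈ K := by
    refine fun ψ => ⟨?_, fun h => ⟨ψ, rfl, h⟩⟩
    rintro ⟨ψ', h1, h2⟩
    obtain ⟨κ, h3, h4⟩ := glue A hR (ψ - ψ') fun u hu w hw => by
      have h5 := congrFun ((Fintype.equivFin _).injective (congrFun h1 ⟨u, hu⟩)) ⟨w, hw⟩
      simp only [raw] at h5
      simp only [Pi.sub_apply]
      linear_combination -h5
    have h5 : X ψ - X ψ' ∈ K := ⟨κ, h3, by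
      funext u w
      rw [h4 u u.2 w w.2]
      simp only [X, raw, Pi.sub_apply]
      ring⟩
    simpa using add_mem h5 h2
  have hX : ∀ c, MeasurableSet {ψ | X ψ = c} := fun c => by
    have h1 : {ψ | X ψ = c} =
        fld N i j R ⁻¹' {x | (fun u : (↑A : Set (Fin d → ℤ)) => x u) =
          fun u => Fintype.equivFin _ (c u)} := by
      ext ψ
      exact ⟨fun h => funext fun u => congrArg (Fintype.equivFin _) (congrFun h u),
        fun h => funext fun u => (Fintype.equivFin _).injective (congrFun h u)⟩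
    rw [h1]
    exact hf (to_pi (meas_pat subset_rfl _))
  have hm : MeasurableSet {x : (Fin d → ℤ) → Fin (Fintype.card (Finset.Icc (-R) R → ZMod N)) |
      ∀ v : A, x v = a v} := by
    rw [ofPred_forall]
    exact MeasurableSet.iInter fun v => to_pi (meas_coord (Δ := univ) (mem_univ _) _)
  have hc : (0 : ℝ) < Nat.card K := by exact_mod_cast Nat.card_pos
  refine ⟨Γ.indicator fun _ => (Nat.card K : ℝ)⁻¹, (ae_eq_condExp_of_forall_setIntegral_eq
    (g := E.indicator fun _ => (Nat.card K : ℝ)⁻¹) (cylinderEvents_le_pi (X := fun _ => Fin _))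
    ((integrable_const (1 : ℝ)).indicator hm)
    (fun s _ _ => ((integrable_const _).indicator (to_pi hE)).integrableOn) (fun S hS _ => ?_)
    (stronglyMeasurable_const.indicator hE).aestronglyMeasurable).symm⟩
  have hS' := to_pi hS
  have h1 : ∀ h : K, (phase d N).real (fld N i j R ⁻¹' S ∩ {ψ | X ψ = a' + h}) =
      (phase d N).real (fld N i j R ⁻¹' S ∩ {ψ | X ψ = a'}) := by
    rintro ⟨_, κ, h1, rfl⟩
    conv_lhs => rw [← phase_inv N 0 κ]
    rw [map_measureReal_apply (by fun_prop) ((hf hS').inter (hX _))]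
    congr 1
    ext ψ
    refine and_congr (cyl_congr hS fun u hu => ?_) ?_
    · show Fintype.equivFin _ _ = Fintype.equivFin _ _
      congr 1
      funext w
      simp only [raw, add_zero, h1 u hu w w.2]
      ring
    · rw [mem_ofPred_eq, mem_ofPred_eq, ← add_left_inj (b := X ψ)]
      refine Eq.congr_left ?_
      funext u w
      simp only [X, raw, add_zero, Pi.add_apply]
      ring
  have h2 : fld N i j R ⁻¹' (S ∩ E) = ⋃ h : K, fld N i j R ⁻¹' S ∩ {ψ | X ψ = a' + h} := by
    ext ψ
    simp only [preimage_inter, mem_inter_iff, mem_iUnion, mem_preimage, hE', mem_ofPred_eq,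
      exists_and_left]
    refine and_congr_right fun _ => ⟨fun h => ⟨⟨_, h⟩, by simp⟩, ?_⟩
    rintro ⟨h, e⟩
    rw [e, add_sub_cancel_left]
    exact h.2
  have h3 : fld N i j R ⁻¹' (S ∩ {x | ∀ v : A, x v = a v}) =
      fld N i j R ⁻¹' S ∩ {ψ | X ψ = a'} := by
    ext ψ
    simp only [preimage_inter, mem_inter_iff, mem_preimage, mem_ofPred_eq, funext_iff (f := X ψ),
      fld, a', Equiv.eq_symm_apply, X]
  have := Fintype.ofFinite K
  rw [setIntegral_indicator (to_pi hE), setIntegral_indicator hm, setIntegral_const,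
    setIntegral_const, law, map_measureReal_apply hf (hS'.inter (to_pi hE)),
    map_measureReal_apply hf (hS'.inter hm), h2, h3, measureReal_iUnion_fintype
      (fun h h' hne => disjoint_left.2 fun ψ e e' =>
        hne (Subtype.ext (add_left_cancel (e.2.symm.trans e'.2))))
      fun h => (hf hS').inter (hX _)]
  simp only [h1, Finset.sum_const, Finset.card_univ, nsmul_eq_mul, smul_eq_mul,
    ← Nat.card_eq_fintype_card]
  field_simp

theorem law_flux (hR : 0 ≤ R) {x : (Fin d → ℤ) → Fin (Fintype.card (Finset.Icc (-R) R → ZMod N))}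
    (hx : InSupport (law N i j R) x) {v w : Fin d → ℤ} (hv : v ∈ Finset.Icc (-R) R)
    (hw : w ∈ Finset.Icc (-R) R) (h1 : x v = x 0) (h2 : x w = x 0) :
    ((v i * w j - w i * v j : ℤ) : ZMod N) = 0 := by
  classical
  have h3 := hx {0, v, w}
  rw [law, Measure.map_apply (fld_meas' N i j R hR) (meas_cyl _ x)] at h3
  obtain ⟨ψ, hψ⟩ := nonempty_of_measure_ne_zero h3.ne'
  have e0 := hψ 0 (by simp)
  have e1 := congrFun ((Fintype.equivFin _).injective
    ((hψ v (by simp)).trans (h1.trans e0.symm))) ⟨w, hw⟩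
  have e2 := congrFun ((Fintype.equivFin _).injective
    ((hψ w (by simp)).trans (h2.trans e0.symm))) ⟨v, hv⟩
  simp only [raw, zero_add, Pi.zero_apply, zero_mul, add_comm w v] at e1 e2
  push_cast at e1 e2 ⊢
  linear_combination e1 - e2

end Pool.Agent.Lib.MP_83a7f3_pr
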