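import Pool.Agent.Lib.MP_83a7f3_pr.Main

set_option autoImplicit false

/-! Closed forms on the grid are exact; gluing across the boundary of a finite set. -/

namespace Pool.Agent.Lib.MP_83a7f3_pr

variable {d : ℕ}

theorem box_ind {lo hi : Fin d → ℤ} {β : Sort*} (f : (Fin d → ℤ) → β)
    (h : ∀ z l, lo ≤ z → z + Pi.single l 1 ≤ hi → f (z + Pi.single l 1) = f z)
    (z : Fin d → ℤ) (h1 : lo ≤ z) (h2 : z ≤ hi) : f z = f lo := by
  have key : ∀ n : ℕ, ∀ z : Fin d → ℤ, ∑ l, (z l - lo l) = n → lo ≤ z → z ≤ hi → f z = f lo := by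
    intro n
    induction n with
    | zero =>
      intro z hz h1 _
      have := (Finset.sum_eq_zero_iff_of_nonneg fun l _ => sub_nonneg.2 (h1 l)).1 hz
      rw [show z = lo from funext fun l => sub_eq_zero.1 (this l (Finset.mem_univ l))]
    | succ n ih =>
      intro z hz h1 h2
      obtain ⟨l, hl⟩ : ∃ l, lo l < z l := by
        by_contra hc
        push Not at hc
        have : ∑ l, (z l - lo l) ≤ 0 := Finset.sum_nonpos fun l _ => sub_nonpos.2 (hc l)
        omega
      obtain ⟨y, rfl⟩ : ∃ y, z = y + Pi.single l 1 := ⟨z - Pi.single l 1, by simp⟩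
      have h3 : lo ≤ y := fun m => by
        have := h1 m
        by_cases hm : m = l
        · subst hm
          simp only [Pi.add_apply, Pi.single_eq_same] at hl
          exact Int.lt_add_one_iff.1 hl
        · simpa [Pi.single_eq_of_ne hm] using this
      rw [h y l h3 h2]
      refine ih y ?_ h3 ((le_add_of_nonneg_right (Pi.single_nonneg.2 zero_le_one)).trans h2)
      simp only [Pi.add_apply, add_sub_right_comm, Finset.sum_add_distrib] at hz
      rw [Finset.sum_pi_single', if_pos (Finset.mem_univ _)] at hz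
      push_cast at hz
      omega
  exact key _ z (Int.toNat_of_nonneg (Finset.sum_nonneg fun l _ => sub_nonneg.2 (h1 l))).symm h1 h2

variable {G : Type} [AddCommGroup G]

theorem poincare (e : (Fin d → ℤ) → Fin d → G)
    (he : ∀ s l m, e s l + e (s + Pi.single l 1) m = e s m + e (s + Pi.single m 1) l) :
    ∃ κ : (Fin d → ℤ) → G, ∀ s l, κ (s + Pi.single l 1) = κ s + e s l := by
  let T : Fin d → Equiv.Perm ((Fin d → ℤ) × G) := fun l =>
    ⟨fun p => (p.1 + Pi.single l 1, p.2 + e p.1 l),
      fun p => (p.1 - Pi.single l 1, p.2 - e (p.1 - Pi.single l 1) l), fun p => by simp,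
      fun p => by simp⟩
  have hT : ∀ l m, Commute (T l) (T m) := fun l m => Equiv.ext fun p =>
    Prod.ext (add_right_comm _ _ _) (by
      show p.2 + e p.1 m + e (p.1 + Pi.single m 1) l = p.2 + e p.1 l + e (p.1 + Pi.single l 1) m
      rw [add_assoc, add_assoc, he])
  let ρ := MonoidHom.noncommPiCoprod (fun l => zpowersHom _ (T l))
    fun l m _ x y => (hT l m).zpow_zpow _ _
  let P : (Fin d → ℤ) → (Fin d → ℤ) × G := fun s => ρ (fun l => Multiplicative.ofAdd (s l)) (0, 0)
  have hP : ∀ s l, P (s + Pi.single l 1) = T l (P s) := by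
    intro s l
    have h1 : (fun m => Multiplicative.ofAdd ((s + Pi.single l 1 : Fin d → ℤ) m)) =
        Pi.mulSingle l (Multiplicative.ofAdd (1 : ℤ)) * fun m => Multiplicative.ofAdd (s m) := by
      funext m
      by_cases hm : m = l
      · subst hm
        simp [mul_comm]
      · simp [Pi.single_eq_of_ne hm, Pi.mulSingle_eq_of_ne hm]
    show ρ _ (0, 0) = _
    rw [h1, map_mul, MonoidHom.noncommPiCoprod_mulSingle]
    simp [P]
  have h1 : ∀ s, (P s).1 = s := by
    intro s
    have h2 := box_ind (lo := s ⊓ 0) (hi := s ⊔ 0) (fun z => (P z).1 - z) fun z l _ _ => by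
      rw [hP]
      exact add_sub_add_right_eq_sub _ _ _
    have h3 : P 0 = (0, 0) := by
      show ρ 1 (0, 0) = _
      rw [map_one]
      rfl
    have h4 := (h2 s inf_le_left le_sup_left).trans (h2 0 inf_le_right le_sup_right).symm
    rw [h3, sub_zero] at h4
    exact sub_eq_zero.1 h4
  refine ⟨fun s => (P s).2, fun s l => ?_⟩
  show (P (s + Pi.single l 1)).2 = (P s).2 + e s l
  rw [hP]
  show (P s).2 + e (P s).1 l = _
  rw [h1]

theorem dist1_step (z : Fin d → ℤ) (l : Fin d) :
    dist1 z (z + Pi.single l 1) = 1 ∧ dist1 (z + Pi.single l 1) z = 1 := by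
  have h : ∀ m, |(Pi.single l 1 : Fin d → ℤ) m| = (Pi.single l 1 : Fin d → ℤ) m := fun m =>
    abs_of_nonneg ((Pi.single_nonneg (α := fun _ : Fin d => ℤ)).2 zero_le_one m)
  simp [dist1, h]

theorem glue (A : Finset (Fin d → ℤ)) {R : Fin d → ℤ} (hR : ∀ l, 2 ≤ R l) (κ' : (Fin d → ℤ) → G)
    (h : ∀ u ∈ bdry A, ∀ w ∈ Finset.Icc (-R) R, κ' (u + w) = κ' u) :
    ∃ κ : (Fin d → ℤ) → G, (∀ u ∉ A, ∀ w ∈ Finset.Icc (-R) R, κ (u + w) = κ u) ∧
      ∀ u ∈ A, ∀ w ∈ Finset.Icc (-R) R, κ (u + w) - κ u = κ' (u + w) - κ' u := by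
  classical
  let e : (Fin d → ℤ) → Fin d → G := fun s l =>
    if ∃ p ∉ A, p - R ≤ s ∧ s + Pi.single l 1 ≤ p + R then 0 else κ' (s + Pi.single l 1) - κ' s
  let K : (Fin d → ℤ) → (Fin d → ℤ) → G := fun p => if p ∈ A then κ' else 0
  have hs : ∀ l, (0 : Fin d → ℤ) ≤ Pi.single l 1 := fun l => Pi.single_nonneg.2 zero_le_one
  have h1 : ∀ p s l, p - R ≤ s → s + Pi.single l 1 ≤ p + R →
      e s l = K p (s + Pi.single l 1) - K p s := by
    intro p s l a1 a2
    by_cases hp : p ∈ A
    swap
    · simp only [e, K, if_neg hp, Pi.zero_apply, sub_zero]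
      exact if_pos ⟨p, hp, a1, a2⟩
    simp only [e, K, if_pos hp]
    split_ifs with h2
    swap
    · rfl
    obtain ⟨p', hp', b1, b2⟩ := h2
    by_contra h3
    have h4 : ∀ z, s + Pi.single l 1 - R ≤ z → z ≤ s + R → z ∉ bdry A := fun z c1 c2 hz => by
      have e1 := h z hz (s - z) (Finset.mem_Icc.2
        ⟨by linear_combination c2, by linear_combination c1 + hs l⟩)
      have e2 := h z hz (s + Pi.single l 1 - z)
        (Finset.mem_Icc.2 ⟨by linear_combination c2 + hs l, by linear_combination c1⟩)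
      rw [add_sub_cancel] at e1 e2
      exact h3 (by rw [e1, e2, sub_self])
    have h5 := box_ind (lo := s + Pi.single l 1 - R) (hi := s + R) (fun z => z ∈ A)
      fun z m c1 c2 => propext ⟨fun hz => by
        by_contra hz'
        exact h4 z c1 (by linear_combination c2 + hs m) ⟨hz', _, hz, (dist1_step z m).2⟩,
      fun hz => by
        by_contra hz'
        exact h4 _ (by linear_combination c1 + hs m) c2 ⟨hz', _, hz, (dist1_step z m).1⟩⟩
    exact hp' ((h5 p' (by linear_combination b2) (by linear_combination b1)).mpr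
      ((h5 p (by linear_combination a2) (by linear_combination a1)).mp hp))
  have hR0 : 0 ≤ R := fun l => by have := hR l; simp only [Pi.zero_apply]; omega
  have hR2 : ∀ l m, Pi.single l 1 + Pi.single m 1 ≤ R := fun l m k => by
    have := hR k
    simp only [Pi.add_apply, Pi.single_apply]
    split_ifs <;> omega
  obtain ⟨κ, hκ⟩ := poincare e fun s l m => by
    have a1 := hR2 l m
    rw [h1 s s l (by linear_combination hR0) (by linear_combination a1 + hs m),
      h1 s s m (by linear_combination hR0) (by linear_combination a1 + hs l),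
      h1 s (s + Pi.single l 1) m (by linear_combination hR0 + hs l) (by linear_combination a1),
      h1 s (s + Pi.single m 1) l (by linear_combination hR0 + hs m) (by linear_combination a1),
      add_right_comm s (Pi.single m 1)]
    abel
  have h2 : ∀ u, ∀ w ∈ Finset.Icc (-R) R, κ (u + w) - κ u = K u (u + w) - K u u := by
    intro u w hw
    obtain ⟨a1, a2⟩ := Finset.mem_Icc.1 hw
    have h3 := box_ind (lo := u - R) (hi := u + R) (fun z => κ z - K u z) fun z l c1 c2 => by
      rw [hκ, h1 u z l c1 c2]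
      abel
    have h4 := (h3 (u + w) (by linear_combination a1) (by linear_combination a2)).trans
      (h3 u (by linear_combination hR0) (by linear_combination hR0)).symm
    exact sub_eq_sub_iff_sub_eq_sub.1 h4
  refine ⟨κ, fun u hu w hw => ?_, fun u hu w hw => ?_⟩
  · have := h2 u w hw
    simp only [K, if_neg hu, Pi.zero_apply, sub_zero] at this
    exact sub_eq_zero.1 this
  · simpa only [K, if_pos hu] using h2 u w hw

theorem bdry_finite (A : Finset (Fin d → ℤ)) : (bdry A).Finite := by
  refine (A.finite_toSet.biUnion fun v _ => Set.finite_Icc (v - 1) (v + 1)).subset ?_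
  rintro w ⟨-, v, hv, hvw⟩
  refine Set.mem_biUnion hv ⟨fun l => ?_, fun l => ?_⟩ <;>
  · have h := le_dist1 v w l
    rw [hvw, abs_le] at h
    simp only [Pi.sub_apply, Pi.add_apply, Pi.one_apply]
    omega

end Pool.Agent.Lib.MP_83a7f3_pr
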