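import Mathlib
import Pool.Agent.Lib.MP_83a7f3_pr.Defs
import Pool.Agent.Lib.MP_83a7f3_pr.Trace

set_option autoImplicit false

/-! The row process of a finitely dependent Markov random field has bounded Hankel rank. -/

namespace Pool.Agent.Lib.MP_83a7f3_pr

open MeasureTheory ProbabilityTheory Set

theorem split_real {Ω β : Type} [MeasurableSpace Ω] (μ : Measure Ω) [IsFiniteMeasure μ] [Fintype β]
    (f : Ω → β) (hf : ∀ b, MeasurableSet {x | f x = b}) {S : Set Ω} (hS : MeasurableSet S) :
    μ.real S = ∑ b, μ.real (S ∩ {x | f x = b}) := by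
  rw [← measureReal_iUnion_fintype]
  · congr 1
    ext x
    simp
  · intro a b hab
    refine Set.disjoint_left.2 ?_
    rintro x ⟨-, h1⟩ ⟨-, h2⟩
    exact hab (h1.symm.trans h2)
  · exact fun b => hS.inter (hf b)

variable {d q : ℕ}

theorem meas_coord {Δ : Set (Fin d → ℤ)} {w : Fin d → ℤ} (hw : w ∈ Δ) (a : Fin q) :
    MeasurableSet[cylinderEvents Δ] {x : (Fin d → ℤ) → Fin q | x w = a} :=
  measurable_cylinderEvent_apply (X := fun _ => Fin q) hw (measurableSet_singleton a)

theorem meas_pat {Δ Γ : Set (Fin d → ℤ)} (h : Γ ⊆ Δ) (y : Γ → Fin q) :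
    MeasurableSet[cylinderEvents Δ] {x : (Fin d → ℤ) → Fin q | (fun w : Γ => x w) = y} := by
  have : {x : (Fin d → ℤ) → Fin q | (fun w : Γ => x w) = y} = ⋂ w : Γ, {x | x w = y w} := by
    ext x
    simp [funext_iff]
  rw [this]
  exact MeasurableSet.iInter (fun w => meas_coord (h w.2) _)

theorem to_pi {Δ : Set (Fin d → ℤ)} {S : Set ((Fin d → ℤ) → Fin q)}
    (h : MeasurableSet[cylinderEvents Δ] S) : MeasurableSet S :=
  cylinderEvents_le_pi (X := fun _ => Fin q) S h

/-- The event that the word `w` is read along the row in direction `i`, starting at `s`. -/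
def ev (i : Fin d) : ℤ → List (Fin q) → Set ((Fin d → ℤ) → Fin q)
  | _, [] => univ
  | s, a :: w => {x | x (Pi.single i s) = a} ∩ ev i (s + 1) w

theorem ev_append (i : Fin d) (u v : List (Fin q)) :
    ∀ s : ℤ, ev i s (u ++ v) = ev i s u ∩ ev i (s + u.length) v := by
  induction u with
  | nil => intro s; simp [ev]
  | cons a u ih =>
    intro s
    simp only [List.cons_append, ev, ih, List.length_cons, inter_assoc]
    congr 3
    push_cast
    ring

theorem meas_ev (i : Fin d) {Δ : Set (Fin d → ℤ)} (w : List (Fin q)) :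
    ∀ s : ℤ, (∀ t : ℤ, s ≤ t → t < s + w.length → Pi.single i t ∈ Δ) →
      MeasurableSet[cylinderEvents Δ] (ev i s w) := by
  induction w with
  | nil => intro s _; exact MeasurableSet.univ
  | cons a w ih =>
    intro s h
    refine MeasurableSet.inter (meas_coord (h s le_rfl ?_) a) (ih (s + 1) (fun t h1 h2 => h t ?_ ?_))
    · simp
    · omega
    · simp only [List.length_cons]; push_cast; omega

theorem meas_ev' (i : Fin d) (w : List (Fin q)) (s : ℤ) : MeasurableSet (ev i s w) :=
  to_pi (meas_ev i (Δ := univ) w s (fun _ _ _ => mem_univ _))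

theorem ev_congr (i : Fin d) (w : List (Fin q)) (x y : (Fin d → ℤ) → Fin q) :
    ∀ s : ℤ, (∀ t : ℤ, s ≤ t → t < s + w.length → x (Pi.single i t) = y (Pi.single i t)) →
      x ∈ ev i s w → y ∈ ev i s w := by
  induction w with
  | nil => intro s _ _; trivial
  | cons a w ih =>
    intro s h hx
    refine ⟨?_, ih (s + 1) (fun t h1 h2 => h t ?_ ?_) hx.2⟩
    · have := h s le_rfl (by simp)
      exact this.symm.trans hx.1
    · omega
    · simp only [List.length_cons]; push_cast; omega

theorem ev_shift (i : Fin d) (t : ℤ) (w : List (Fin q)) :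
    ∀ s : ℤ, (fun (x : (Fin d → ℤ) → Fin q) v => x (v + Pi.single i t)) ⁻¹' ev i s w =
      ev i (s + t) w := by
  induction w with
  | nil => intro s; simp [ev]
  | cons a w ih =>
    intro s
    simp only [ev, preimage_inter, ih, preimage_ofPred_eq, ← Pi.single_add]
    congr 2
    ring

theorem real_ev_shift {μ : Measure ((Fin d → ℤ) → Fin q)} (h : ShiftInvariant μ) (i : Fin d)
    (w : List (Fin q)) (s : ℤ) : μ.real (ev i s w) = μ.real (ev i 0 w) := by
  have hm : Measurable
      (fun (x : (Fin d → ℤ) → Fin q) (v : Fin d → ℤ) => x (v + (Pi.single i s : Fin d → ℤ))) :=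
    measurable_pi_lambda _ (fun v => measurable_pi_apply (v + (Pi.single i s : Fin d → ℤ)))
  have := ev_shift i s w 0
  rw [zero_add] at this
  rw [← this, measureReal_def, measureReal_def, ← Measure.map_apply hm (meas_ev' i w 0), h]

theorem dist1_single (i : Fin d) (s t : ℤ) :
    dist1 (Pi.single i s : Fin d → ℤ) (Pi.single i t) = |s - t| := by
  unfold dist1
  rw [Finset.sum_eq_single i]
  · simp
  · intro j _ hj
    simp [Pi.single_eq_of_ne hj]
  · simp

theorem le_dist1 (u v : Fin d → ℤ) (j : Fin d) : |u j - v j| ≤ dist1 u v :=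
  Finset.single_le_sum (f := fun j => |u j - v j|) (fun _ _ => abs_nonneg _) (Finset.mem_univ j)

theorem sum_first {μ : Measure ((Fin d → ℤ) → Fin q)} [IsFiniteMeasure μ] (i : Fin d)
    {S : Set ((Fin d → ℤ) → Fin q)} (hS : MeasurableSet S) (s : ℤ) (v : List (Fin q)) :
    ∑ a, μ.real (S ∩ ev i s (a :: v)) = μ.real (S ∩ ev i (s + 1) v) := by
  rw [split_real μ (fun x => x (Pi.single i s))
    (fun b => to_pi (meas_coord (Δ := univ) (mem_univ _) b)) (hS.inter (meas_ev' i v (s + 1)))]
  refine Finset.sum_congr rfl (fun a _ => ?_)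
  congr 1
  simp only [ev]
  ext x
  simp only [mem_inter_iff, mem_ofPred_eq]
  tauto

theorem markov_factor {μ : Measure ((Fin d → ℤ) → Fin q)} [IsProbabilityMeasure μ]
    (hM : MarkovRandomField μ) (A : Finset (Fin d → ℤ)) (R : Set ((Fin d → ℤ) → Fin q))
    (hR : ∀ x y : (Fin d → ℤ) → Fin q, (∀ v ∈ A, x v = y v) → x ∈ R → y ∈ R)
    (z : bdry A → Fin q) : ∃ G : ℝ, ∀ L : Set ((Fin d → ℤ) → Fin q),
      MeasurableSet[cylinderEvents (↑A : Set (Fin d → ℤ))ᶜ] L →
      (∀ x ∈ L, (fun w : bdry A => x w) = z) → μ.real (L ∩ R) = G * μ.real L := by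
  classical
  choose g hg using hM A
  refine ⟨∑ a : A → Fin q, if ∃ x ∈ R, (fun v : A => x v) = a then g a z else 0, ?_⟩
  intro L hL hz
  have hL' : MeasurableSet L := to_pi hL
  have hpat : ∀ a : A → Fin q, MeasurableSet {x : (Fin d → ℤ) → Fin q | (fun v : A => x v) = a} :=
    fun a => to_pi (meas_pat (Δ := univ) (Γ := (↑A : Set (Fin d → ℤ))) (subset_univ _) a)
  have hRU : R = ⋃ a ∈ {a : A → Fin q | ∃ x ∈ R, (fun v : A => x v) = a},
      {x | (fun v : A => x v) = a} := by
    ext x
    simp only [mem_iUnion, mem_ofPred_eq, exists_prop]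
    constructor
    · intro hx
      exact ⟨_, ⟨x, hx, rfl⟩, rfl⟩
    · rintro ⟨a, ⟨y, hy, rfl⟩, h⟩
      exact hR y x (fun v hv => (congrFun h ⟨v, hv⟩).symm) hy
  have hRm : MeasurableSet R := by
    rw [hRU]
    exact MeasurableSet.biUnion (to_countable _) (fun a _ => hpat a)
  rw [split_real μ (fun x => fun v : A => x v) hpat (hL'.inter hRm), Finset.sum_mul]
  refine Finset.sum_congr rfl (fun a _ => ?_)
  split_ifs with ha
  · obtain ⟨y, hy, rfl⟩ := ha
    have e1 : L ∩ R ∩ {x | (fun v : A => x v) = fun v : A => y v} =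
        L ∩ {x | ∀ v : A, x v = y v} := by
      ext x
      simp only [mem_inter_iff, mem_ofPred_eq, funext_iff]
      constructor
      · rintro ⟨⟨h1, -⟩, h2⟩
        exact ⟨h1, h2⟩
      · rintro ⟨h1, h2⟩
        exact ⟨⟨h1, hR y x (fun v hv => (h2 ⟨v, hv⟩).symm) hy⟩, h2⟩
    have hm : MeasurableSet {x : (Fin d → ℤ) → Fin q | ∀ v : A, x v = y v} := by
      have := hpat (fun v : A => y v)
      simpa only [funext_iff] using this
    have e2 := setIntegral_condExp (μ := μ) (cylinderEvents_le_pi (X := fun _ => Fin q))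
      ((integrable_const (1 : ℝ)).indicator hm) hL
    rw [setIntegral_congr_ae hL' ((hg (fun v : A => y v)).mono (fun x hx _ => hx)),
      setIntegral_congr_fun hL' (g := fun _ => g (fun v : A => y v) z)
        (fun x hx => by simp only [hz x hx]),
      setIntegral_const, setIntegral_indicator hm, setIntegral_const] at e2
    rw [e1]
    simp only [smul_eq_mul, mul_one] at e2
    rw [← e2, mul_comm]
  · have : L ∩ R ∩ {x | (fun v : A => x v) = a} = ∅ := by
      rw [eq_empty_iff_forall_notMem]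
      rintro x ⟨⟨-, h1⟩, h2⟩
      exact ha ⟨x, h1, h2⟩
    rw [this]
    simp

theorem rank_bound {μ : Measure ((Fin d → ℤ) → Fin q)} [IsProbabilityMeasure μ]
    (hS : ShiftInvariant μ) (hM : MarkovRandomField μ) (i : Fin d) (k : ℕ)
    (hk : ∀ A B : Set (Fin d → ℤ), (∀ u ∈ A, ∀ v ∈ B, (k : ℤ) ≤ dist1 u v) →
      Indep (cylinderEvents A) (cylinderEvents B) μ) :
    ∃ D : ℕ, ∀ (u : Fin (D + 1) → List (Fin q)) (b : ℕ), ∃ c : Fin (D + 1) → ℝ, c ≠ 0 ∧
      ∀ v : List (Fin q), v.length ≤ b → ∑ j, c j * μ.real (ev i 0 (u j ++ v)) = 0 := by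
  classical
  let N : Finset (Fin d → ℤ) :=
    Fintype.piFinset (fun j => if j = i then {-1} else Finset.Icc (-(k : ℤ)) k)
  have hN : ∀ w, w ∈ N ↔ w i = -1 ∧ ∀ j, j ≠ i → |w j| ≤ k := by
    intro w
    simp only [N, Fintype.mem_piFinset]
    constructor
    · intro h
      refine ⟨by simpa using h i, fun j hj => ?_⟩
      have := h j
      simp only [hj, if_false, Finset.mem_Icc] at this
      exact abs_le.2 this
    · rintro ⟨h1, h2⟩ j
      by_cases hj : j = i
      · simp [hj, h1]
      · simp only [hj, if_false, Finset.mem_Icc]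
        exact abs_le.1 (h2 j hj)
  refine ⟨Fintype.card ((↑N : Set (Fin d → ℤ)) → Fin q), fun u b => ?_⟩
  let A : Finset (Fin d → ℤ) :=
    Fintype.piFinset (fun j => if j = i then Finset.Icc 0 ((b : ℤ) + k) else Finset.Icc (-(k : ℤ)) k)
  have hA : ∀ w, w ∈ A ↔ (0 ≤ w i ∧ w i ≤ b + k) ∧ ∀ j, j ≠ i → |w j| ≤ k := by
    intro w
    simp only [A, Fintype.mem_piFinset]
    constructor
    · intro h
      refine ⟨by simpa using h i, fun j hj => ?_⟩
      have := h j
      simp only [hj, if_false, Finset.mem_Icc] at this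
      exact abs_le.2 this
    · rintro ⟨h1, h2⟩ j
      by_cases hj : j = i
      · simp [hj, h1]
      · simp only [hj, if_false, Finset.mem_Icc]
        exact abs_le.1 (h2 j hj)
  let F : Set (Fin d → ℤ) := bdry A \ ↑N
  have hfar : ∀ t : ℤ, t < b → ∀ w ∈ F, (k : ℤ) ≤ dist1 (Pi.single i t) w := by
    rintro t ht w ⟨⟨hwA, v, hv, hvw⟩, hwN⟩
    by_cases h1 : ∀ j, j ≠ i → |w j| ≤ k
    · have h2 := le_dist1 (Pi.single i t) w i
      have h3 := le_dist1 v w i
      have h4 := ((hA v).1 hv).1
      have h5 : w i ≠ -1 := fun e => hwN ((hN w).2 ⟨e, h1⟩)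
      have h6 : ¬ (0 ≤ w i ∧ w i ≤ b + k) := fun e => hwA ((hA w).2 ⟨e, h1⟩)
      rw [hvw, abs_le] at h3
      simp only [Pi.single_eq_same] at h2
      have h7 := neg_abs_le (t - w i)
      omega
    · push Not at h1
      obtain ⟨j, hj, h2⟩ := h1
      have h3 := le_dist1 (Pi.single i t) w j
      simp only [Pi.single_eq_of_ne hj, zero_sub, abs_neg] at h3
      omega
  have hFfin : F.Finite := by
    refine (Fintype.piFinset (fun _ : Fin d =>
      Finset.Icc (-((b : ℤ) + k + 1)) ((b : ℤ) + k + 1))).finite_toSet.subset ?_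
    rintro w ⟨⟨-, v, hv, hvw⟩, -⟩
    simp only [Fintype.coe_piFinset, Set.mem_pi, mem_univ, Finset.coe_Icc, mem_Icc, true_imp_iff]
    intro j
    have h3 := le_dist1 v w j
    rw [hvw, abs_le] at h3
    obtain ⟨h4, h5⟩ := (hA v).1 hv
    by_cases hj : j = i
    · subst hj; omega
    · have := abs_le.1 (h5 j hj)
      omega
  have := hFfin.fintype
  obtain ⟨y, hy⟩ : ∃ y : F → Fin q, μ.real {x | (fun w : F => x w) = y} ≠ 0 := by
    by_contra hc
    push Not at hc
    have := split_real μ (fun x => fun w : F => x w)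
      (fun y => to_pi (meas_pat (Δ := univ) (subset_univ _) y)) MeasurableSet.univ
    simp [hc] at this
  let Y : Set ((Fin d → ℤ) → Fin q) := {x | (fun w : F => x w) = y}
  let L : Fin _ → ((↑N : Set (Fin d → ℤ)) → Fin q) → Set ((Fin d → ℤ) → Fin q) := fun j c =>
    ev i (-((u j).length : ℤ)) (u j) ∩ Y ∩ {x | (fun w : (↑N : Set (Fin d → ℤ)) => x w) = c}
  have hLm : ∀ j c, MeasurableSet[cylinderEvents (↑A : Set (Fin d → ℤ))ᶜ] (L j c) := by
    intro j c
    refine MeasurableSet.inter (MeasurableSet.inter (meas_ev i _ _ ?_) (meas_pat ?_ y))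
      (meas_pat ?_ c)
    · intro t _ ht h
      have := ((hA _).1 h).1.1
      simp only [Pi.single_eq_same] at this
      omega
    · intro w hw
      exact hw.1.1
    · intro w hw h
      have h1 := ((hA _).1 h).1.1
      have h2 := ((hN _).1 hw).1
      omega
  have hdep : ¬ LinearIndependent ℝ (fun j => fun c => μ.real (L j c)) := by
    intro h
    have := h.fintype_card_le_finrank
    simp at this
  obtain ⟨lam, hlam, j0, hj0⟩ := Fintype.not_linearIndependent_iff.1 hdep
  refine ⟨lam, fun e => hj0 (congrFun e j0), fun v hv => ?_⟩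
  have hR : ∀ x x' : (Fin d → ℤ) → Fin q, (∀ w ∈ A, x w = x' w) → x ∈ ev i 0 v → x' ∈ ev i 0 v := by
    intro x x' h
    refine ev_congr i v x x' 0 (fun t h1 h2 => h _ ((hA _).2 ⟨?_, fun j hj => ?_⟩))
    · simp only [Pi.single_eq_same]
      omega
    · simp [Pi.single_eq_of_ne hj]
  choose G hG using fun c : (↑N : Set (Fin d → ℤ)) → Fin q => markov_factor hM A (ev i 0 v) hR
    (fun w => if h : w.1 ∈ N then c ⟨w.1, h⟩ else y ⟨w.1, w.2, h⟩)
  have key : ∀ j, μ.real (ev i 0 (u j ++ v)) * μ.real Y = ∑ c, G c * μ.real (L j c) := by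
    intro j
    have hind := hk {w | ∃ t : ℤ, t < b ∧ w = Pi.single i t} F
      (by rintro _ ⟨t, ht, rfl⟩ w hw; exact hfar t ht w hw)
    have h1 := (Indep_iff _ _ _).1 hind (ev i (-((u j).length : ℤ)) (u j ++ v)) Y
      (meas_ev i _ _ (fun t _ ht => ⟨t, by
        simp only [List.length_append] at ht; push_cast at ht; omega, rfl⟩))
      (meas_pat subset_rfl y)
    have h2 : μ.real (ev i (-((u j).length : ℤ)) (u j ++ v) ∩ Y) =
        μ.real (ev i 0 (u j ++ v)) * μ.real Y := by
      rw [← real_ev_shift hS i _ (-((u j).length : ℤ)), measureReal_def, h1, ENNReal.toReal_mul]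
      rfl
    rw [← h2, split_real μ (fun x => fun w : (↑N : Set (Fin d → ℤ)) => x w)
      (fun c => to_pi (meas_pat (Δ := univ) (subset_univ _) c))
      ((meas_ev' i _ _).inter (to_pi (meas_pat (Δ := univ) (subset_univ _) y)))]
    refine Finset.sum_congr rfl (fun c _ => ?_)
    rw [← hG c (L j c) (hLm j c)]
    · congr 1
      rw [ev_append, neg_add_cancel]
      ext x
      simp only [L, mem_inter_iff]
      tauto
    · rintro x ⟨⟨-, hx1⟩, hx2⟩
      funext w
      split_ifs with h
      · exact congrFun hx2 ⟨w.1, h⟩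
      · exact congrFun hx1 ⟨w.1, w.2, h⟩
  have hz : (∑ j, lam j * μ.real (ev i 0 (u j ++ v))) * μ.real Y = 0 := by
    rw [Finset.sum_mul]
    simp only [mul_assoc, key, Finset.mul_sum]
    rw [Finset.sum_comm]
    refine Finset.sum_eq_zero (fun c _ => ?_)
    have := congrFun hlam c
    simp only [Finset.sum_apply, Pi.smul_apply, smul_eq_mul, Pi.zero_apply] at this
    calc ∑ j, lam j * (G c * μ.real (L j c)) = G c * ∑ j, lam j * μ.real (L j c) := by
          rw [Finset.mul_sum]
          exact Finset.sum_congr rfl (fun j _ => by ring)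
      _ = 0 := by rw [this, mul_zero]
  exact (mul_eq_zero.1 hz).resolve_right hy

theorem main (hd : 1 ≤ d) (μ : Measure ((Fin d → ℤ) → Fin q)) [IsProbabilityMeasure μ]
    (hS : ShiftInvariant μ) (hF : FinitelyDependent μ) (hP : SupportedOnProper μ)
    (hM : MarkovRandomField μ) : False := by
  let i : Fin d := ⟨0, hd⟩
  obtain ⟨k, hk⟩ := hF
  obtain ⟨D, hD⟩ := rank_bound hS hM i k hk
  refine trace_obstruction (fun w => μ.real (ev i 0 w)) k D ?_ ?_ ?_ ?_ ?_ hD
  · simp [ev]
  · intro w
    simp only [ev_append]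
    rw [sum_first i (meas_ev' i w 0)]
    simp [ev]
  · intro w
    have := sum_first (μ := μ) i MeasurableSet.univ 0 w
    simp only [univ_inter] at this
    rw [this, real_ev_shift hS]
  · intro u x v
    rw [measureReal_def, ENNReal.toReal_eq_zero_iff]
    left
    refine measure_mono_null ?_ (ae_iff.1 hP)
    intro c hc hcon
    rw [ev_append] at hc
    obtain ⟨-, h1, h2, -⟩ := hc
    refine hcon _ _ ?_ (h1.trans h2.symm)
    rw [dist1_single]
    simp
  · intro u
    have h1 : ∀ (j : ℕ) (v : List (Fin q)),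
        ((sh (Fin q)) ^ j) (fun v => μ.real (ev i 0 (u ++ v))) v =
          μ.real (ev i 0 u ∩ ev i (u.length + j) v) := by
      intro j
      induction j with
      | zero => intro v; simp [ev_append]
      | succ j ih =>
        intro v
        rw [pow_succ', Module.End.mul_apply, sh_apply]
        simp only [ih]
        rw [sum_first i (meas_ev' i u 0)]
        congr 3
    intro v
    rw [h1]
    have hind := hk {w | ∃ t : ℤ, t < u.length ∧ w = Pi.single i t}
      {w | ∃ t : ℤ, u.length + k ≤ t ∧ w = Pi.single i t} (by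
        rintro _ ⟨s, hs, rfl⟩ _ ⟨t, ht, rfl⟩
        rw [dist1_single]
        have := neg_abs_le (s - t)
        omega)
    have h2 := (Indep_iff _ _ _).1 hind (ev i 0 u) (ev i (u.length + k) v)
      (meas_ev i _ _ (fun t _ ht => ⟨t, by omega, rfl⟩))
      (meas_ev i _ _ (fun t ht _ => ⟨t, ht, rfl⟩))
    rw [← real_ev_shift hS i v (u.length + k), measureReal_def, h2, ENNReal.toReal_mul]
    rfl

end Pool.Agent.Lib.MP_83a7f3_pr
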